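import Pool.Agent.K4H48.Agl.Bridge

/-! Inner functions on the bidisk for which a compressed shift has reducing Agler subspaces are
exactly the products of two one-variable inner functions. -/

set_option autoImplicit false

namespace Pool.Agent.Results.MP_f7d35b_an.ReducingAgler

open Pool.Agent.K4H48.AglS

/-- For every inner function `θ` on the bidisk the following are equivalent: one of the two
compressed shifts has reducing Agler subspaces; one of them has reducing Agler subspaces which come
from holomorphic kernels and decompose `K_θ` orthogonally; `θ` is a product of two one-variable
inner functions. -/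
theorem result (θ : ℂ × ℂ → ℂ) (hθ : IsInnerBidisk θ) :
    List.TFAE [HasReducing θ 0 ∨ HasReducing θ 1,
      HasReducingOrth θ 0 ∨ HasReducingOrth θ 1, IsProduct θ] :=
  Pool.Agent.K4H48.Agl.agler_char' θ hθ

end Pool.Agent.Results.MP_f7d35b_an.ReducingAgler
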